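import Pool.Agent.X117.All3

/-!
# Joint values and joint moments of all derivatives of Hardy's function

Unconditionally, for every `m ≥ 1` and all signs `σ₁, σ₂`: for `0 < κ ≤ 2` the set of the `t ∈ [T, 2 T]` with
`σ₁ Z^(m-1)(t) > 0`, `σ₂ Z^(m)(t) > 0` and `|Z^(j)(t)| = (log T) ^ (j + κ + o(1))` for all `0 ≤ j ≤ m` simultaneously
has measure `T (log T) ^ (-κ ^ 2 + o(1))`; for real exponents `a_0, ..., a_m` with `0 < A = a_0 + ... + a_m ≤ 4` the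
integral of `∏ |Z^(j)| ^ a_j` over the `t ∈ [T, 2 T]` with these signs is at least
`T (log T) ^ (A ^ 2 / 4 + ∑ j a_j - ε)`, with the exact exponent if all `a_j ≥ 0`.
-/

open Filter Topology Complex MeasureTheory

namespace Pool.Agent.Results.MP_973905_nt.AllDerivativesTogether

/-- the phase `exp (i ϑ(t))`, with `ϑ(t) = arg Γ(1/4 + i t / 2) - (t / 2) log π` -/
noncomputable def phase (t : ℝ) : ℂ :=
  Gamma (1 / 4 + I * t / 2) / ‖Gamma (1 / 4 + I * t / 2)‖ * cexp (-(I * (t / 2) * Real.log Real.pi))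

/-- Hardy's function `Z(t) = exp (i ϑ(t)) ζ(1/2 + i t)`; the product is real, see `Z_eq` -/
noncomputable def Z (t : ℝ) : ℝ := (phase t * riemannZeta (1 / 2 + I * t)).re

theorem Z_eq (t : ℝ) : ((Z t : ℝ) : ℂ) = phase t * riemannZeta (1 / 2 + I * t) :=
  Pool.Agent.X117.HZ.Z_eq t

/-- the `t ∈ [T, 2 T]` with `σ₁ Z^(n)(t) > 0` and `σ₂ Z^(n+1)(t) > 0` -/
def signs (σ₁ σ₂ : ℝ) (n : ℕ) (T : ℝ) : Set ℝ :=
  {t : ℝ | T ≤ t ∧ t ≤ 2 * T ∧ 0 < σ₁ * iteratedDeriv n Z t ∧ 0 < σ₂ * iteratedDeriv (n + 1) Z t}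

/-- the `t` in `signs σ₁ σ₂ n T` with `(log T) ^ (j + κ - ε) ≤ |Z^(j)(t)| ≤ (log T) ^ (j + κ + ε)` for all
`0 ≤ j ≤ n + 1` -/
def near (σ₁ σ₂ : ℝ) (n : ℕ) (κ ε T : ℝ) : Set ℝ :=
  {t : ℝ | t ∈ signs σ₁ σ₂ n T ∧ ∀ j : ℕ, j ≤ n + 1 →
    Real.log T ^ (j + (κ - ε)) ≤ |iteratedDeriv j Z t| ∧ |iteratedDeriv j Z t| ≤ Real.log T ^ (j + (κ + ε))}

/-- the `t` in `signs σ₁ σ₂ n T` with `|Z^(j)(t)| ≥ (log T) ^ (j + κ)` for all `0 ≤ j ≤ n + 1` -/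
def large (σ₁ σ₂ : ℝ) (n : ℕ) (κ T : ℝ) : Set ℝ :=
  {t : ℝ | t ∈ signs σ₁ σ₂ n T ∧ ∀ j : ℕ, j ≤ n + 1 → Real.log T ^ (j + κ) ≤ |iteratedDeriv j Z t|}

/-- the integral of `∏_{j ≤ n + 1} |Z^(j)| ^ (a j)` over `signs σ₁ σ₂ n T` -/
noncomputable def joint (σ₁ σ₂ : ℝ) (n : ℕ) (a : ℕ → ℝ) (T : ℝ) : ENNReal :=
  ∫⁻ t in signs σ₁ σ₂ n T, ENNReal.ofReal (∏ j ∈ Finset.range (n + 2), |iteratedDeriv j Z t| ^ a j)

/-- the sum `A` of the exponents `a_0, ..., a_(n+1)` -/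
noncomputable def tot (n : ℕ) (a : ℕ → ℝ) : ℝ := ∑ j ∈ Finset.range (n + 2), a j

/-- the exponent `A ^ 2 / 4 + ∑ j a_j` -/
noncomputable def expo (n : ℕ) (a : ℕ → ℝ) : ℝ := tot n a ^ 2 / 4 + ∑ j ∈ Finset.range (n + 2), j * a j

/-- `log (f / T) / log log T → a` from bounds up to `(log T) ^ ε` -/
lemma tendsto_of_bounds {f : ℝ → ℝ} {a : ℝ}
    (hlo : ∀ ε : ℝ, 0 < ε → ∀ᶠ T : ℝ in atTop, T * Real.log T ^ (a - ε) ≤ f T)
    (hup : ∀ ε : ℝ, 0 < ε → ∀ᶠ T : ℝ in atTop, f T ≤ T * Real.log T ^ (a + ε)) :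
    Tendsto (fun T : ℝ => Real.log (f T / T) / Real.log (Real.log T)) atTop (𝓝 a) := by
  rw [Metric.tendsto_nhds]
  intro e he
  filter_upwards [hlo (e / 2) (by positivity), hup (e / 2) (by positivity),
    (Real.tendsto_log_atTop.comp Real.tendsto_log_atTop).eventually_ge_atTop 1,
    Real.tendsto_log_atTop.eventually_ge_atTop 1, eventually_ge_atTop 1] with T h1 h2 h3 h4 h5
  have hT0 : 0 < T := by linarith
  have hL0 : 0 < Real.log T := by linarith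
  have h3' : 1 ≤ Real.log (Real.log T) := h3
  have hLL0 : 0 < Real.log (Real.log T) := by linarith
  have p1 : Real.log T ^ (a - e / 2) ≤ f T / T := by
    rw [le_div_iff₀ hT0]; linarith
  have p2 : f T / T ≤ Real.log T ^ (a + e / 2) := by
    rw [div_le_iff₀ hT0]; linarith
  have p0 : 0 < f T / T := lt_of_lt_of_le (Real.rpow_pos_of_pos hL0 _) p1
  have q1 : (a - e / 2) * Real.log (Real.log T) ≤ Real.log (f T / T) := by
    have := Real.log_le_log (Real.rpow_pos_of_pos hL0 _) p1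
    rwa [Real.log_rpow hL0] at this
  have q2 : Real.log (f T / T) ≤ (a + e / 2) * Real.log (Real.log T) := by
    have := Real.log_le_log p0 p2
    rwa [Real.log_rpow hL0] at this
  rw [Real.dist_eq, abs_lt]
  constructor
  · have : a - e / 2 ≤ Real.log (f T / T) / Real.log (Real.log T) := by
      rw [le_div_iff₀ hLL0]; exact q1
    linarith
  · have : Real.log (f T / T) / Real.log (Real.log T) ≤ a + e / 2 := by
      rw [div_le_iff₀ hLL0]; exact q2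
    linarith

/-- a constant factor is at most `(log T) ^ ε` -/
lemma const_le {f : ℝ → ℝ} {a C : ℝ} (h : ∀ᶠ T : ℝ in atTop, f T ≤ C * (T * Real.log T ^ a)) {ε : ℝ}
    (hε : 0 < ε) : ∀ᶠ T : ℝ in atTop, f T ≤ T * Real.log T ^ (a + ε) := by
  have hLε : Tendsto (fun T : ℝ => Real.log T ^ ε) atTop atTop :=
    (tendsto_rpow_atTop hε).comp Real.tendsto_log_atTop
  filter_upwards [h, hLε.eventually_ge_atTop C, Real.tendsto_log_atTop.eventually_ge_atTop 1,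
    eventually_ge_atTop 1] with T h1 h2 hL hT1
  have hL0 : 0 < Real.log T := by linarith
  refine h1.trans ?_
  rw [Real.rpow_add hL0]
  have h3 : 0 ≤ T * Real.log T ^ a := by positivity
  nlinarith

lemma near_eq (σ₁ σ₂ : ℝ) (n : ℕ) (κ ε T : ℝ) :
    near σ₁ σ₂ n κ ε T = Pool.Agent.X117.AD.all σ₁ σ₂ n (κ - ε) (κ + ε) T := by
  ext t
  constructor
  · rintro ⟨⟨h1, h2, h3, h4⟩, h5⟩
    exact ⟨⟨⟨h3, h4⟩, h5⟩, ⟨h1, h2⟩⟩
  · rintro ⟨⟨⟨h3, h4⟩, h5⟩, ⟨h1, h2⟩⟩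
    exact ⟨⟨h1, h2, h3, h4⟩, h5⟩

lemma large_eq (σ₁ σ₂ : ℝ) (n : ℕ) (κ T : ℝ) :
    large σ₁ σ₂ n κ T = Pool.Agent.X117.AD.allLarge σ₁ σ₂ n κ T := by
  ext t
  constructor
  · rintro ⟨⟨h1, h2, h3, h4⟩, h5⟩
    exact ⟨h1, h2, h3, h4, h5⟩
  · rintro ⟨h1, h2, h3, h4, h5⟩
    exact ⟨⟨h1, h2, h3, h4⟩, h5⟩

/-- **joint values and joint moments of all derivatives of Hardy's function** -/
theorem result : ∀ (n : ℕ) (σ₁ σ₂ : ℝ), (σ₁ = 1 ∨ σ₁ = -1) → (σ₂ = 1 ∨ σ₂ = -1) →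
    (∀ κ : ℝ, 0 < κ → κ ≤ 2 →
      (∀ ε : ℝ, 0 < ε → ∃ T₀ : ℝ, ∀ T : ℝ, T₀ ≤ T →
        T * Real.log T ^ (-κ ^ 2 - ε) ≤ volume.real (near σ₁ σ₂ n κ ε T)) ∧
      Tendsto (fun T : ℝ => Real.log (volume.real (large σ₁ σ₂ n κ T) / T) / Real.log (Real.log T))
        atTop (𝓝 (-κ ^ 2))) ∧
    ∀ a : ℕ → ℝ, 0 < tot n a → tot n a ≤ 4 →
      (∀ ε : ℝ, 0 < ε → ∃ T₀ : ℝ, ∀ T : ℝ, T₀ ≤ T →
        ENNReal.ofReal (T * Real.log T ^ (expo n a - ε)) ≤ joint σ₁ σ₂ n a T) ∧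
      ((∀ j, 0 ≤ a j) →
        (∃ C T₀ : ℝ, ∀ T : ℝ, T₀ ≤ T →
          joint σ₁ σ₂ n a T ≤ ENNReal.ofReal (C * (T * Real.log T ^ expo n a))) ∧
        Tendsto (fun T : ℝ => Real.log ((joint σ₁ σ₂ n a T).toReal / T) / Real.log (Real.log T))
          atTop (𝓝 (expo n a))) := by
  intro n σ₁ σ₂ h1 h2
  refine ⟨?_, ?_⟩
  · intro κ h0 hκ2
    obtain ⟨C, -, hC⟩ := Pool.Agent.X117.AD.allLarge_le h0 hκ2 n σ₁ h2
    refine ⟨fun ε hε => ?_, ?_⟩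
    · have h := Pool.Agent.X117.AD.all_ge h0 hκ2 hε n h1 h2
      simp only [← near_eq] at h
      exact Filter.eventually_atTop.mp h
    · refine tendsto_of_bounds (fun ε hε => ?_) fun ε hε => ?_
      · have h := Pool.Agent.X117.AD.allLarge_ge h0 hκ2 hε n h1 h2
        simp only [← large_eq] at h
        exact h
      · have h := const_le hC hε
        simp only [← large_eq] at h
        exact h
  · intro a h0 h4
    have hlow : ∀ ε : ℝ, 0 < ε → ∀ᶠ T : ℝ in atTop,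
        ENNReal.ofReal (T * Real.log T ^ (expo n a - ε)) ≤ joint σ₁ σ₂ n a T := fun ε hε =>
      Pool.Agent.X117.AD.multi_ge h0 h4 hε h1 h2
    refine ⟨fun ε hε => Filter.eventually_atTop.mp (hlow ε hε), fun ha => ?_⟩
    obtain ⟨C, hC1, hC'⟩ := Pool.Agent.X117.AD.multi_le ha h0 h4 σ₁ σ₂
    have hC : ∀ᶠ T : ℝ in atTop, joint σ₁ σ₂ n a T ≤ ENNReal.ofReal (C * (T * Real.log T ^ expo n a)) := hC'
    refine ⟨⟨C, Filter.eventually_atTop.mp hC⟩, tendsto_of_bounds (fun ε hε => ?_) fun ε hε => ?_⟩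
    · filter_upwards [hlow ε hε, hC, Real.tendsto_log_atTop.eventually_ge_atTop 1,
        eventually_ge_atTop 1] with T h3 h4 hL hT1
      exact (ENNReal.ofReal_le_iff_le_toReal (ne_top_of_le_ne_top ENNReal.ofReal_ne_top h4)).mp h3
    · refine const_le (C := C) ?_ hε
      filter_upwards [hC, Real.tendsto_log_atTop.eventually_ge_atTop 1,
        eventually_ge_atTop 1] with T h4 hL hT1
      exact ENNReal.toReal_le_of_le_ofReal (by positivity) h4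

end Pool.Agent.Results.MP_973905_nt.AllDerivativesTogether
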