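import Pool.Agent.X110.LT5

/-!
# Moments of complex orders near the critical line (mod-Gaussian convergence)

For complex `z` let `moment δ V T z = (1/T) ∫ |ζ(1/2 + δ + it)|^(2z) dt` over the `t` in `(0, T]` with
`1/V < |ζ(1/2 + δ + it)| < V`.

(1) For every `r` there is `c > 0` such that for every `B`, uniformly in `|z| ≤ r`, in
`C loglog T / log T ≤ δ ≤ 1/16` and in `(log T)^A ≤ V ≤ T^(cδ)`,
`moment δ V T z = ∑_n d_z(n)^2 n^(-1-2δ) + O((log T)^(-B))`, with `d_z` the coefficients of `ζ^z`; the omitted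
`t` have measure at most `T (log T)^(-B)`.

(2) If `δ = δ(T) → 0` and `log V / loglog T → ∞`, `log V / (δ log T) → 0`, then
`(2δ)^(z^2) moment δ V T z → a(z)` for every complex `z`, also when `z` varies with `T` in a convergent way
(so locally uniformly), where `a(z) = ∏_p (1 - 1/p)^(z^2) ∑_m (z(z+1)⋯(z+m-1)/m!)^2 p^(-m)`.
The product converges for all complex `z`; for real `z` it is a positive real number.
-/

set_option autoImplicit false

namespace Pool.Agent.Results.MP_973905_nt.ComplexOrders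

open MeasureTheory Finset Filter Topology

noncomputable section

/-- The point `1/2 + δ + it`. -/
def pt (δ t : ℝ) : ℂ := ((1 / 2 + δ : ℝ) : ℂ) + (t : ℂ) * Complex.I

/-- The `t` in `(0, T]` at which `|ζ|` lies between `1/V` and `V`. -/
def good (δ V T : ℝ) : Set ℝ :=
  {t | t ∈ Set.Ioc 0 T ∧ V⁻¹ < ‖riemannZeta (pt δ t)‖ ∧ ‖riemannZeta (pt δ t)‖ < V}

/-- `(1/T) ∫ |ζ(1/2 + δ + it)|^(2z) dt` over `good δ V T`. -/
def moment (δ V T : ℝ) (z : ℂ) : ℂ :=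
  (1 / (T : ℂ)) * ∫ t in good δ V T, ((‖riemannZeta (pt δ t)‖ : ℝ) : ℂ) ^ (2 * z)

/-- `z (z + 1) ⋯ (z + m - 1) / m!`. -/
def bin (z : ℂ) (m : ℕ) : ℂ := ∏ i ∈ range m, (z + i) / ((i : ℂ) + 1)

/-- The coefficient `d_z(n)` of `n^(-s)` in `ζ(s)^z`. -/
def dk (z : ℂ) (n : ℕ) : ℂ := if n = 0 then 0 else n.factorization.prod fun _ e => bin z e

/-- `∑_n d_z(n)^2 n^(-1-2δ)`. -/
def diag (δ : ℝ) (z : ℂ) : ℂ := ∑' n : ℕ, dk z n ^ 2 * (((n : ℝ) ^ (-1 - 2 * δ) : ℝ) : ℂ)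

/-- The factor of `a(z)` at the prime `p`. -/
def factor (z : ℂ) (p : ℕ) : ℂ :=
  ((1 - 1 / (p : ℝ) : ℝ) : ℂ) ^ (z ^ 2) * ∑' m : ℕ, bin z m ^ 2 * ((1 / (p : ℝ) : ℝ) : ℂ) ^ m

/-- The arithmetic factor `a(z)`. -/
def arith (z : ℂ) : ℂ := ∏' p : Nat.Primes, factor z p

/-- Moments of complex orders near the critical line. -/
theorem result :
    (∀ r : ℝ, 0 ≤ r → ∃ c : ℝ, 0 < c ∧ ∀ B : ℝ, ∃ A C T₀ : ℝ, 0 < C ∧ ∀ T : ℝ, T₀ ≤ T →
      ∀ δ : ℝ, C * Real.log (Real.log T) / Real.log T ≤ δ → δ ≤ 1 / 16 →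
      ∀ V : ℝ, Real.log T ^ A ≤ V → V ≤ T ^ (c * δ) →
      (volume (Set.Ioc 0 T \ good δ V T)).toReal ≤ T * Real.log T ^ (-B) ∧
      ∀ z : ℂ, ‖z‖ ≤ r → ‖moment δ V T z - diag δ z‖ ≤ Real.log T ^ (-B)) ∧
    (∀ δ V : ℝ → ℝ, Tendsto δ atTop (𝓝 0) → (∀ᶠ T in atTop, 0 < δ T) → (∀ᶠ T in atTop, 1 ≤ V T) →
      Tendsto (fun T => Real.log (V T) / Real.log (Real.log T)) atTop atTop →
      Tendsto (fun T => Real.log (V T) / (δ T * Real.log T)) atTop (𝓝 0) → ∀ z₀ : ℂ,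
      Tendsto (fun q : ℂ × ℝ => ((2 * δ q.2 : ℝ) : ℂ) ^ (q.1 ^ 2) * moment (δ q.2) (V q.2) q.2 q.1)
        (𝓝 z₀ ×ˢ atTop) (𝓝 (arith z₀))) ∧
    (∀ z : ℂ, Multipliable fun p : Nat.Primes => factor z p) ∧
    ∀ α : ℝ, ∃ a : ℝ, 0 < a ∧ arith α = (a : ℂ) := by
  have hdiag : ∀ δ z, diag δ z = Pool.Agent.X110.LT.SSC z δ := by
    intro δ z
    unfold diag Pool.Agent.X110.LT.SSC
    refine tsum_congr fun n => ?_
    have e : -(2 * (1 / 2 + δ)) = -1 - 2 * δ := by ring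
    rw [e]
    rfl
  have hmom : ∀ δ V T z, δ ≤ 1 / 16 → 1 ≤ V → moment δ V T z = Pool.Agent.X110.LT.MT V δ T z := by
    intro δ V T z hδ hV
    unfold moment Pool.Agent.X110.LT.MT ProbabilityTheory.complexMGF
    congr 1
    have hs : good δ V T = Pool.Agent.X110.ND.gset V δ T := rfl
    rw [hs]
    refine setIntegral_congr_fun (Pool.Agent.X110.ND.gset_meas V δ T hδ) fun t ht => ?_
    have h1 : 0 < ‖riemannZeta (pt δ t)‖ := lt_trans (inv_pos.mpr (by linarith)) ht.2.1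
    show ((‖riemannZeta (pt δ t)‖ : ℝ) : ℂ) ^ (2 * z) = Complex.exp (2 * z * (Pool.Agent.X110.LT.Xf δ t : ℝ))
    rw [Complex.cpow_def_of_ne_zero (by exact_mod_cast h1.ne'), ← Complex.ofReal_log h1.le, mul_comm]
    rfl
  refine ⟨?_, ?_, fun z => Pool.Agent.X110.LT.GC_mult z, fun α => ⟨Pool.Agent.X110.LT.aR α,
    Pool.Agent.X110.LT.aR_pos α, Pool.Agent.X110.LT.aFC_ofReal α⟩⟩
  · intro r hr
    obtain ⟨c, hc, H⟩ := Pool.Agent.X110.LT.cmoment r hr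
    refine ⟨c, hc, fun B => ?_⟩
    obtain ⟨A, C, T0, hC, H2⟩ := H (max B 0) (le_max_right _ _)
    refine ⟨max A 0, C, T0, hC, fun T hT δ hδ hδ1 V hV1 hV2 => ?_⟩
    obtain ⟨hL1, hδ0, h2δ, H3⟩ := H2 T hT δ hδ hδ1
    have hV1A : Real.log T ^ A ≤ V := (Real.rpow_le_rpow_of_exponent_le hL1 (le_max_left _ _)).trans hV1
    have hV : 1 ≤ V := by
      have h0 := Real.rpow_le_rpow_of_exponent_le hL1 (le_max_right A 0)
      rw [Real.rpow_zero] at h0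
      exact h0.trans hV1
    obtain ⟨g1, g2⟩ := H3 V hV1A hV2
    have hB : Real.log T ^ (-(max B 0)) ≤ Real.log T ^ (-B) :=
      Real.rpow_le_rpow_of_exponent_le hL1 (neg_le_neg (le_max_left _ _))
    have hT0 : 0 ≤ T := by
      by_contra hcon
      push Not at hcon
      have h1 : Set.Ioc 0 T = ∅ := Set.Ioc_eq_empty (by linarith)
      rw [h1, Set.empty_sdiff, measure_empty, ENNReal.toReal_zero] at g1
      have h2 : 0 < Real.log T ^ (-(max B 0)) := Real.rpow_pos_of_pos (by linarith) _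
      nlinarith
    refine ⟨g1.trans (mul_le_mul_of_nonneg_left hB hT0), fun z hz => ?_⟩
    rw [hmom δ V T z hδ1 hV, hdiag]
    exact (g2 z hz).trans hB
  · intro δ V h1 h2 h3 h4 h5 z₀
    have hA : Pool.Agent.X110.LT.Adm δ V := ⟨h1, h3, h2, h4, h5⟩
    refine (Pool.Agent.X110.LT.modGauss hA z₀).congr' ?_
    have h6 := h1.eventually (gt_mem_nhds (by norm_num : (0:ℝ) < 1 / 16))
    filter_upwards [tendsto_snd.eventually h6, tendsto_snd.eventually h3] with q g1 g2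
    rw [hmom _ _ _ _ g1.le g2]

end

end Pool.Agent.Results.MP_973905_nt.ComplexOrders
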