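import Pool.Agent.X111.FL.One

set_option autoImplicit false

/-!
MP_973905_nt. Moments of real order of zeta and its derivatives near the critical line. Let `δ(T) → 0`, `δ(T) log T → ∞`, and let
`0 < k ≤ 2` be real. For all real shifts `a_i`, all orders `j_i ≥ 0` and every continuous `F : ℂ^m → ℝ` with
`F(c v) = |c|^(2k) F(v)`,
`(2δ)^(k²) (1/T) ∫_0^T F((δ^(j_i) ζ^(j_i)(1/2 + δ + i (t + a_i δ)))_i) dt` converges to `a(k) E F((f^(j_i)(i a_i))_i)`, where `f` is the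
random holomorphic function `f(z) = (1 + z/2)^(-k) exp(∑_{n ≥ 1} ξ_n w^n / √n)`, `w = z/(z+2)`, with independent standard complex
Gaussian `ξ_n`. In particular `(1/T) ∫_0^T |ζ|^(2k-2m) |ζ'|^(2m) dt ~ a(k) E|ξ - k|^(2m) (2δ)^(-k²-2m)` for real `0 ≤ m ≤ k`.
-/

open Filter Topology MeasureTheory

namespace Pool.Agent.Results.MP_973905_nt.JetMoments

/-- The generalised divisor function at a prime power: `d_k(p^m) = Γ(k + m) / (Γ(k) m!)`. -/
noncomputable def dk (k : ℝ) (m : ℕ) : ℝ := Real.Gamma (k + m) / (Real.Gamma k * (m.factorial : ℝ))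

/-- The arithmetic factor `a(k) = ∏_p (1 - 1/p)^(k²) ∑_m d_k(p^m)² p^(-m)`. -/
noncomputable def ak (k : ℝ) : ℝ :=
  ∏' p : Nat.Primes, ((1 - 1 / (p : ℝ)) ^ (k ^ 2) * ∑' m : ℕ, dk k m ^ 2 / (p : ℝ) ^ m)

/-- The centred normal law of variance `1/2`. -/
noncomputable def ga : Measure ℝ := ProbabilityTheory.gaussianReal 0 (1 / 2)

/-- The law of a sequence of independent standard complex Gaussian variables, as pairs of real and imaginary parts. -/
noncomputable def noise : Measure (ℕ → ℝ × ℝ) := Measure.infinitePi fun _ => ga.prod ga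

/-- The limit field `f(z) = (1 + z/2)^(-k) exp(∑_{n ≥ 1} ξ_n w^n / √n)`, `w = z/(z+2)`, `ξ_{n+1} = ω_n`. -/
noncomputable def field (k : ℝ) (ω : ℕ → ℝ × ℝ) (z : ℂ) : ℂ :=
  (1 + z / 2) ^ (-(k : ℂ)) *
    Complex.exp (∑' n : ℕ, (((ω n).1 : ℂ) + (ω n).2 * Complex.I) * ((z / (z + 2)) ^ (n + 1) / (Real.sqrt (n + 1) : ℂ)))

/-- the coefficients -/
lemma dk_lc {k : ℝ} (hk : 0 < k) (m : ℕ) : dk k m = Pool.Agent.H306R2.lc k m := by
  have hG : Real.Gamma k ≠ 0 := (Real.Gamma_pos_of_pos hk).ne'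
  unfold dk
  induction m with
  | zero =>
    unfold Pool.Agent.H306R2.lc
    simp [hG]
  | succ m ih =>
    have h1 : Pool.Agent.H306R2.lc k (m + 1) = Pool.Agent.H306R2.lc k m * ((k + m) / ((m : ℝ) + 1)) := by
      unfold Pool.Agent.H306R2.lc
      rw [Finset.prod_range_succ]
    have hkm : k + (m : ℝ) ≠ 0 := by positivity
    have h2 : Real.Gamma (k + ((m + 1 : ℕ) : ℝ)) = (k + m) * Real.Gamma (k + m) := by
      rw [← Real.Gamma_add_one hkm]
      congr 1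
      push_cast
      ring
    have hf : (m.factorial : ℝ) ≠ 0 := by positivity
    rw [h1, ← ih, h2, Nat.factorial_succ]
    push_cast
    field_simp

/-- the arithmetic factor -/
lemma ak_aF {k : ℝ} (hk : 0 < k) : ak k = Pool.Agent.H306R2.aF k := by
  unfold ak Pool.Agent.H306R2.aF
  refine tprod_congr fun p => ?_
  simp_rw [dk_lc hk, one_div, inv_pow, div_eq_mul_inv]

/-- the field -/
lemma field_fi (k : ℝ) (ω : ℕ → ℝ × ℝ) : field k ω = Pool.Agent.X111.FL.fi k ω := by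
  funext z
  unfold field Pool.Agent.X111.FL.fi Pool.Agent.X111.FL.gf Pool.Agent.X111.JD.nn
  rfl

theorem result : ∀ δ : ℝ → ℝ, Tendsto δ atTop (𝓝 0) → Tendsto (fun T : ℝ => δ T * Real.log T) atTop atTop →
    ∀ k : ℝ, 0 < k → k ≤ 2 →
    (∀ (m : ℕ) (a : Fin m → ℝ) (j : Fin m → ℕ) (F : (Fin m → ℂ) → ℝ), Continuous F →
      (∀ (c : ℂ) (v : Fin m → ℂ), F (fun i => c * v i) = ‖c‖ ^ (2 * k) * F v) →
      Tendsto (fun T : ℝ => (2 * δ T) ^ (k ^ 2) * (1 / T) * ∫ t in Set.Icc 0 T,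
        F (fun i => (δ T : ℂ) ^ (j i) * iteratedDeriv (j i) riemannZeta (1 / 2 + δ T + Complex.I * (t + a i * δ T)))) atTop
        (𝓝 (ak k * ∫ ω, F (fun i => iteratedDeriv (j i) (field k ω) (Complex.I * a i)) ∂noise))) ∧
    (∀ m : ℝ, 0 ≤ m → m ≤ k →
      Tendsto (fun T : ℝ => (2 * δ T) ^ (k ^ 2 + 2 * m) * (1 / T) * ∫ t in Set.Icc 0 T,
        ‖riemannZeta (1 / 2 + δ T + Complex.I * t)‖ ^ (2 * k - 2 * m) *
          ‖deriv riemannZeta (1 / 2 + δ T + Complex.I * t)‖ ^ (2 * m)) atTop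
        (𝓝 (ak k * ∫ p : ℝ × ℝ, ((p.1 - k) ^ 2 + p.2 ^ 2) ^ m ∂(ga.prod ga)))) := by
  intro δ hδ hδL k hk hk2
  refine ⟨fun m a j F hF hom => ?_, fun m hm0 hmk => ?_⟩
  · have h1 := Pool.Agent.X111.FL.jets hk hk2 hδ hδL a j hF hom
    rw [ak_aF hk]
    simp_rw [field_fi]
    refine h1.congr fun T => ?_
    rw [mul_one_div]
    congr 2
    funext t
    congr 1
    funext i
    congr 2
    push_cast
    ring
  · have h1 := Pool.Agent.X111.FL.one hk hk2 hδ hδL hm0 hmk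
    rw [ak_aF hk]
    refine h1.congr fun T => ?_
    rw [mul_one_div]
    congr 2
    funext t
    rw [mul_comm (t : ℂ) Complex.I]

end Pool.Agent.Results.MP_973905_nt.JetMoments
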