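import Pool.Agent.X117.HZ5
import Pool.Agent.Y745.UP.All

/-!
# Values and moments of Hardy's function with a given sign

Unconditionally, for both signs `σ`: the set of the `t ∈ [T, 2 T]` with
`(log T) ^ (κ - ε) ≤ σ Z(t) ≤ (log T) ^ (κ + ε)` has measure at least `T (log T) ^ (-κ ^ 2 - ε)`, for every
real `κ`, and the integral of `|Z(t)| ^ (2 k)` over the `t ∈ [T, 2 T]` with `σ Z(t) > 0` is at least
`T (log T) ^ (k ^ 2 - ε)`, for every real `k`. For `0 < κ ≤ 2` and `0 < k ≤ 2` these are the exact exponents.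
-/

open Filter Topology Complex MeasureTheory

namespace Pool.Agent.Results.MP_973905_nt.SignedMomentsOfZ

/-- the phase `exp (i ϑ(t))`, with `ϑ(t) = arg Γ(1/4 + i t / 2) - (t / 2) log π` -/
noncomputable def phase (t : ℝ) : ℂ :=
  Gamma (1 / 4 + I * t / 2) / ‖Gamma (1 / 4 + I * t / 2)‖ * cexp (-(I * (t / 2) * Real.log Real.pi))

/-- Hardy's function `Z(t) = exp (i ϑ(t)) ζ(1/2 + i t)`; the product is real, see `Z_eq` -/
noncomputable def Z (t : ℝ) : ℝ := (phase t * riemannZeta (1 / 2 + I * t)).re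

theorem Z_eq (t : ℝ) : ((Z t : ℝ) : ℂ) = phase t * riemannZeta (1 / 2 + I * t) :=
  Pool.Agent.X117.HZ.Z_eq t

/-- the `t ∈ [T, 2 T]` with `(log T) ^ (κ - ε) ≤ σ Z(t) ≤ (log T) ^ (κ + ε)` -/
def near (σ κ ε T : ℝ) : Set ℝ :=
  {t : ℝ | T ≤ t ∧ t ≤ 2 * T ∧ Real.log T ^ (κ - ε) ≤ σ * Z t ∧ σ * Z t ≤ Real.log T ^ (κ + ε)}

/-- the `t ∈ [T, 2 T]` with `σ Z(t) ≥ (log T) ^ κ` -/
def large (σ κ T : ℝ) : Set ℝ := {t : ℝ | T ≤ t ∧ t ≤ 2 * T ∧ Real.log T ^ κ ≤ σ * Z t}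

/-- the `t ∈ [T, 2 T]` with `σ Z(t) > 0` -/
def ofSign (σ T : ℝ) : Set ℝ := {t : ℝ | T ≤ t ∧ t ≤ 2 * T ∧ 0 < σ * Z t}

/-- the integral of `|Z(t)| ^ (2 k)` over the `t ∈ [T, 2 T]` with `σ Z(t) > 0` -/
noncomputable def moment (σ k T : ℝ) : ENNReal := ∫⁻ t in ofSign σ T, ENNReal.ofReal (|Z t| ^ (2 * k))

lemma abs_Z (t : ℝ) : |Z t| = ‖riemannZeta (1 / 2 + I * t)‖ := Pool.Agent.X117.HZ.abs_Z t

lemma Z_cont : Continuous Z := Pool.Agent.X117.HZ.Z_cont

lemma sign_mul {σ x : ℝ} (hσ : σ = 1 ∨ σ = -1) (h : 0 < σ * x) : σ * x = |x| := by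
  rcases hσ with rfl | rfl
  · rw [one_mul] at h ⊢
    exact (abs_of_pos h).symm
  · rw [neg_one_mul] at h ⊢
    exact (abs_of_neg (by linarith)).symm

lemma sub_Icc {P : ℝ → Prop} (T : ℝ) : {t : ℝ | T ≤ t ∧ t ≤ 2 * T ∧ P t} ⊆ Set.Icc T (2 * T) :=
  fun _ h => ⟨h.1, h.2.1⟩

lemma vol_ne {s : Set ℝ} {T : ℝ} (h : s ⊆ Set.Icc T (2 * T)) : volume s ≠ ⊤ :=
  (measure_lt_top_of_subset h (by rw [Real.volume_Icc]; exact ENNReal.ofReal_ne_top)).ne

lemma ofSign_meas (σ T : ℝ) : MeasurableSet (ofSign σ T) := by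
  have h : ofSign σ T = Set.Icc T (2 * T) ∩ {t | 0 < σ * Z t} := by
    ext t
    simp [ofSign, and_assoc]
  rw [h]
  exact measurableSet_Icc.inter (isOpen_lt continuous_const (continuous_const.mul Z_cont)).measurableSet

lemma near_meas (σ κ ε T : ℝ) : MeasurableSet (near σ κ ε T) := by
  have h : near σ κ ε T = Set.Icc T (2 * T) ∩
      ({t | Real.log T ^ (κ - ε) ≤ σ * Z t} ∩ {t | σ * Z t ≤ Real.log T ^ (κ + ε)}) := by
    ext t
    simp [near, and_assoc]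
  rw [h]
  exact measurableSet_Icc.inter
    ((isClosed_le continuous_const (continuous_const.mul Z_cont)).measurableSet.inter
      (isClosed_le (continuous_const.mul Z_cont) continuous_const).measurableSet)

lemma large_meas (σ κ T : ℝ) : MeasurableSet (large σ κ T) := by
  have h : large σ κ T = Set.Icc T (2 * T) ∩ {t | Real.log T ^ κ ≤ σ * Z t} := by
    ext t
    simp [large, and_assoc]
  rw [h]
  exact measurableSet_Icc.inter (isClosed_le continuous_const (continuous_const.mul Z_cont)).measurableSet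

/-- the values of a given size and sign -/
lemma near_ge {σ : ℝ} (hσ : σ = 1 ∨ σ = -1) (κ : ℝ) {ε : ℝ} (hε : 0 < ε) :
    ∀ᶠ T : ℝ in atTop, T * Real.log T ^ (-κ ^ 2 - ε) ≤ volume.real (near σ κ ε T) := by
  filter_upwards [Pool.Agent.X117.HZ.signed_values κ hε hσ, eventually_gt_atTop 1,
    Real.tendsto_log_atTop.eventually_gt_atTop 0] with T hT hT1 hL0
  refine hT.trans (measureReal_mono ?_ (vol_ne (sub_Icc T)))
  rintro t ⟨h1, h2, h3, h4⟩
  have h4' : 0 < σ * Z t := h4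
  have h5 : σ * Z t = |Z t| := sign_mul hσ h4'
  have h6 : |Z t| = ‖riemannZeta (1 / 2 + (t : ℂ) * I)‖ := by
    rw [abs_Z, mul_comm I (t : ℂ)]
  have h7 : 0 < |Z t| := by rw [← h5]; exact h4'
  rw [← h6] at h3
  have h8 := abs_le.mp h3
  have hLL : Pool.Agent.Y745.LD.LL T = Real.log (Real.log T) := rfl
  rw [hLL] at h8
  refine ⟨h1, h2, ?_, ?_⟩
  · rw [h5, ← Real.log_le_log_iff (Real.rpow_pos_of_pos hL0 _) h7, Real.log_rpow hL0]
    linarith [h8.1]
  · rw [h5, ← Real.log_le_log_iff h7 (Real.rpow_pos_of_pos hL0 _), Real.log_rpow hL0]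
    linarith [h8.2]

/-- a power of a number between `a ^ x` and `a ^ y` -/
lemma rpow_ge_of {a b k η : ℝ} (ha : 1 ≤ a) (h1 : a ^ (k - η) ≤ b) (h2 : b ≤ a ^ (k + η)) :
    a ^ (2 * k * k - 2 * |k| * η) ≤ b ^ (2 * k) := by
  have ha0 : 0 < a := by linarith
  have hb0 : 0 < b := lt_of_lt_of_le (Real.rpow_pos_of_pos ha0 _) h1
  rcases le_or_gt 0 k with hk | hk
  · have h3 := Real.rpow_le_rpow (by positivity) h1 (show 0 ≤ 2 * k by linarith)
    rw [← Real.rpow_mul ha0.le] at h3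
    refine le_trans (le_of_eq ?_) h3
    congr 1
    rw [abs_of_nonneg hk]
    ring
  · have h3 := Real.rpow_le_rpow_of_nonpos hb0 h2 (show 2 * k ≤ 0 by linarith)
    rw [← Real.rpow_mul ha0.le] at h3
    refine le_trans (le_of_eq ?_) h3
    congr 1
    rw [abs_of_neg hk]
    ring

lemma near_sub {σ κ ε T : ℝ} (hL : 0 < Real.log T) : near σ κ ε T ⊆ ofSign σ T :=
  fun _ h => ⟨h.1, h.2.1, lt_of_lt_of_le (Real.rpow_pos_of_pos hL _) h.2.2.1⟩

/-- the moments of each sign from below, for all real `k` -/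
lemma moment_ge {σ : ℝ} (hσ : σ = 1 ∨ σ = -1) (k : ℝ) {ε : ℝ} (hε : 0 < ε) :
    ∀ᶠ T : ℝ in atTop, ENNReal.ofReal (T * Real.log T ^ (k ^ 2 - ε)) ≤ moment σ k T := by
  have hk := abs_nonneg k
  set η : ℝ := ε / (1 + 2 * |k|) with hη
  have hη0 : 0 < η := by positivity
  have hη1 : η + 2 * |k| * η = ε := by
    rw [hη]
    field_simp
  filter_upwards [near_ge hσ k hη0, Real.tendsto_log_atTop.eventually_ge_atTop 1,
    eventually_ge_atTop 1] with T hT hL hT1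
  have hT0 : 0 < T := by linarith
  have hL0 : 0 < Real.log T := by linarith
  have h1 : ∫⁻ _ in near σ k η T, ENNReal.ofReal (Real.log T ^ (2 * k * k - 2 * |k| * η)) ≤
      ∫⁻ t in near σ k η T, ENNReal.ofReal (|Z t| ^ (2 * k)) := by
    refine setLIntegral_mono' (near_meas σ k η T) fun t ht => ?_
    refine ENNReal.ofReal_le_ofReal ?_
    have h2 : σ * Z t = |Z t| := sign_mul hσ (near_sub hL0 ht).2.2
    have h3 := ht.2.2
    rw [h2] at h3
    exact rpow_ge_of hL h3.1 h3.2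
  rw [setLIntegral_const] at h1
  have h4 : ∫⁻ t in near σ k η T, ENNReal.ofReal (|Z t| ^ (2 * k)) ≤ moment σ k T :=
    lintegral_mono_set (near_sub hL0)
  refine le_trans ?_ (h1.trans h4)
  have h5 : volume (near σ k η T) = ENNReal.ofReal (volume.real (near σ k η T)) :=
    (ENNReal.ofReal_toReal (vol_ne (sub_Icc T))).symm
  rw [h5, ← ENNReal.ofReal_mul (by positivity)]
  refine ENNReal.ofReal_le_ofReal ?_
  refine le_trans (le_of_eq ?_) (mul_le_mul_of_nonneg_left hT (by positivity))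
  rw [mul_left_comm, ← Real.rpow_add hL0]
  congr 2
  linarith

/-- the moments of `|Z|` from above -/
lemma strip (k : ℝ) (h0 : 0 < k) (h2 : k ≤ 2) : ∃ C : ℝ, 1 ≤ C ∧ ∀ᶠ T : ℝ in atTop,
    ∫⁻ t in Set.Icc T (2 * T), ENNReal.ofReal (|Z t| ^ (2 * k)) ≤
      ENNReal.ofReal (C * (T * Real.log T ^ (k ^ 2))) := by
  obtain ⟨C, hC, h⟩ := Pool.Agent.Y568.UP.t_STRIP Pool.Agent.Y732.UP.t_SUBA Pool.Agent.Y745.UP.a_OUT
    k 1 h0 h2 one_pos
  refine ⟨C, hC, ?_⟩
  filter_upwards [h, Real.tendsto_log_atTop.eventually_ge_atTop 1, eventually_ge_atTop 1] with T hT hL hT1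
  have hT0 : 0 < T := by linarith
  have h1 := hT 0 (by rw [abs_zero]; positivity)
  have hz : ∀ t : ℝ, ‖riemannZeta (((1 / 2 + 0 : ℝ) : ℂ) + t * I)‖ = |Z t| := by
    intro t
    rw [abs_Z]
    congr 2
    push_cast
    ring
  simp_rw [hz] at h1
  have hcont : Continuous fun t : ℝ => |Z t| ^ (2 * k) :=
    (continuous_abs.comp Z_cont).rpow_const fun _ => Or.inr (by positivity)
  rw [intervalIntegral.integral_of_le (by linarith), ← integral_Icc_eq_integral_Ioc] at h1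
  have hint : IntegrableOn (fun t : ℝ => |Z t| ^ (2 * k)) (Set.Icc (T / 2) (3 * T)) :=
    hcont.continuousOn.integrableOn_compact isCompact_Icc
  have h3 : ENNReal.ofReal (∫ t in Set.Icc (T / 2) (3 * T), |Z t| ^ (2 * k)) =
      ∫⁻ t in Set.Icc (T / 2) (3 * T), ENNReal.ofReal (|Z t| ^ (2 * k)) :=
    ofReal_integral_eq_lintegral_ofReal hint (Filter.Eventually.of_forall fun t => by positivity)
  calc ∫⁻ t in Set.Icc T (2 * T), ENNReal.ofReal (|Z t| ^ (2 * k)) ≤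
      ∫⁻ t in Set.Icc (T / 2) (3 * T), ENNReal.ofReal (|Z t| ^ (2 * k)) :=
        lintegral_mono_set (Set.Icc_subset_Icc (by linarith) (by linarith))
    _ = ENNReal.ofReal (∫ t in Set.Icc (T / 2) (3 * T), |Z t| ^ (2 * k)) := h3.symm
    _ ≤ _ := ENNReal.ofReal_le_ofReal h1

lemma moment_le (σ k : ℝ) (h0 : 0 < k) (h2 : k ≤ 2) : ∃ C : ℝ, 1 ≤ C ∧ ∀ᶠ T : ℝ in atTop,
    moment σ k T ≤ ENNReal.ofReal (C * (T * Real.log T ^ (k ^ 2))) := by
  obtain ⟨C, hC, h⟩ := strip k h0 h2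
  refine ⟨C, hC, ?_⟩
  filter_upwards [h] with T hT
  exact (lintegral_mono_set (sub_Icc T)).trans hT

lemma large_le {σ : ℝ} (hσ : σ = 1 ∨ σ = -1) (κ : ℝ) (h0 : 0 < κ) (h2 : κ ≤ 2) :
    ∃ C : ℝ, 1 ≤ C ∧ ∀ᶠ T : ℝ in atTop, volume.real (large σ κ T) ≤ C * (T * Real.log T ^ (-κ ^ 2)) := by
  obtain ⟨C, hC, h⟩ := strip κ h0 h2
  refine ⟨C, hC, ?_⟩
  filter_upwards [h, Real.tendsto_log_atTop.eventually_ge_atTop 1, eventually_ge_atTop 1] with T hT hL hT1
  have hT0 : 0 < T := by linarith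
  have hL0 : 0 < Real.log T := by linarith
  have h1 : ∫⁻ _ in large σ κ T, ENNReal.ofReal (Real.log T ^ (2 * κ ^ 2)) ≤
      ∫⁻ t in large σ κ T, ENNReal.ofReal (|Z t| ^ (2 * κ)) := by
    refine setLIntegral_mono' (large_meas σ κ T) fun t ht => ?_
    refine ENNReal.ofReal_le_ofReal ?_
    have h3 : σ * Z t = |Z t| := sign_mul hσ (lt_of_lt_of_le (Real.rpow_pos_of_pos hL0 _) ht.2.2)
    have h4 := ht.2.2
    rw [h3] at h4
    have h5 := Real.rpow_le_rpow (by positivity) h4 (show 0 ≤ 2 * κ by linarith)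
    rw [← Real.rpow_mul hL0.le] at h5
    refine le_trans (le_of_eq ?_) h5
    congr 1
    ring
  rw [setLIntegral_const] at h1
  have h6 : ENNReal.ofReal (Real.log T ^ (2 * κ ^ 2)) * volume (large σ κ T) ≤
      ENNReal.ofReal (C * (T * Real.log T ^ (κ ^ 2))) :=
    h1.trans ((lintegral_mono_set (sub_Icc T)).trans hT)
  have h7 : volume (large σ κ T) = ENNReal.ofReal (volume.real (large σ κ T)) :=
    (ENNReal.ofReal_toReal (vol_ne (sub_Icc T))).symm
  rw [h7, ← ENNReal.ofReal_mul (by positivity), ENNReal.ofReal_le_ofReal_iff (by positivity)] at h6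
  have h8 : 0 < Real.log T ^ (2 * κ ^ 2) := Real.rpow_pos_of_pos hL0 _
  have h9 : Real.log T ^ (κ ^ 2) = Real.log T ^ (2 * κ ^ 2) * Real.log T ^ (-κ ^ 2) := by
    rw [← Real.rpow_add hL0]
    congr 1
    ring
  rw [h9] at h6
  refine le_of_mul_le_mul_left ?_ h8
  linarith

/-- `log (f / T) / log log T → a` from bounds up to `(log T) ^ ε` -/
lemma tendsto_of_bounds {f : ℝ → ℝ} {a : ℝ}
    (hlo : ∀ ε : ℝ, 0 < ε → ∀ᶠ T : ℝ in atTop, T * Real.log T ^ (a - ε) ≤ f T)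
    (hup : ∀ ε : ℝ, 0 < ε → ∀ᶠ T : ℝ in atTop, f T ≤ T * Real.log T ^ (a + ε)) :
    Tendsto (fun T : ℝ => Real.log (f T / T) / Real.log (Real.log T)) atTop (𝓝 a) := by
  rw [Metric.tendsto_nhds]
  intro e he
  filter_upwards [hlo (e / 2) (by positivity), hup (e / 2) (by positivity),
    (Real.tendsto_log_atTop.comp Real.tendsto_log_atTop).eventually_ge_atTop 1,
    Real.tendsto_log_atTop.eventually_ge_atTop 1, eventually_ge_atTop 1] with T h1 h2 h3 h4 h5
  have hT0 : 0 < T := by linarith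
  have hL0 : 0 < Real.log T := by linarith
  have h3' : 1 ≤ Real.log (Real.log T) := h3
  have hLL0 : 0 < Real.log (Real.log T) := by linarith
  have p1 : Real.log T ^ (a - e / 2) ≤ f T / T := by
    rw [le_div_iff₀ hT0]; linarith
  have p2 : f T / T ≤ Real.log T ^ (a + e / 2) := by
    rw [div_le_iff₀ hT0]; linarith
  have p0 : 0 < f T / T := lt_of_lt_of_le (Real.rpow_pos_of_pos hL0 _) p1
  have q1 : (a - e / 2) * Real.log (Real.log T) ≤ Real.log (f T / T) := by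
    have := Real.log_le_log (Real.rpow_pos_of_pos hL0 _) p1
    rwa [Real.log_rpow hL0] at this
  have q2 : Real.log (f T / T) ≤ (a + e / 2) * Real.log (Real.log T) := by
    have := Real.log_le_log p0 p2
    rwa [Real.log_rpow hL0] at this
  rw [Real.dist_eq, abs_lt]
  constructor
  · have : a - e / 2 ≤ Real.log (f T / T) / Real.log (Real.log T) := by
      rw [le_div_iff₀ hLL0]; exact q1
    linarith
  · have : Real.log (f T / T) / Real.log (Real.log T) ≤ a + e / 2 := by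
      rw [div_le_iff₀ hLL0]; exact q2
    linarith

/-- a constant factor is at most `(log T) ^ ε` -/
lemma const_le {f : ℝ → ℝ} {a C : ℝ} (h : ∀ᶠ T : ℝ in atTop, f T ≤ C * (T * Real.log T ^ a)) {ε : ℝ}
    (hε : 0 < ε) : ∀ᶠ T : ℝ in atTop, f T ≤ T * Real.log T ^ (a + ε) := by
  have hLε : Tendsto (fun T : ℝ => Real.log T ^ ε) atTop atTop :=
    (tendsto_rpow_atTop hε).comp Real.tendsto_log_atTop
  filter_upwards [h, hLε.eventually_ge_atTop C, Real.tendsto_log_atTop.eventually_ge_atTop 1,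
    eventually_ge_atTop 1] with T h1 h2 hL hT1
  have hL0 : 0 < Real.log T := by linarith
  refine h1.trans ?_
  rw [Real.rpow_add hL0]
  have h3 : 0 ≤ T * Real.log T ^ a := by positivity
  nlinarith

/-- the points of a given sign above `(log T) ^ κ` from below -/
lemma large_ge {σ : ℝ} (hσ : σ = 1 ∨ σ = -1) (κ : ℝ) (h0 : 0 < κ) {ε : ℝ} (hε : 0 < ε) :
    ∀ᶠ T : ℝ in atTop, T * Real.log T ^ (-κ ^ 2 - ε) ≤ volume.real (large σ κ T) := by
  -- use the values near `(log T) ^ (κ + η)`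
  set η : ℝ := min 1 (ε / (2 * κ + 2)) with hη
  have hη0 : 0 < η := lt_min one_pos (by positivity)
  have hη1 : η ≤ 1 := min_le_left _ _
  have hη2 : η * (2 * κ + 2) ≤ ε := by
    have := min_le_right (1 : ℝ) (ε / (2 * κ + 2))
    rw [← hη, le_div_iff₀ (by positivity)] at this
    exact this
  filter_upwards [near_ge hσ (κ + η) hη0, Real.tendsto_log_atTop.eventually_ge_atTop 1,
    eventually_ge_atTop 1] with T hT hL hT1
  have hT0 : 0 < T := by linarith
  have h1 : near σ (κ + η) η T ⊆ large σ κ T := by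
    rintro t ⟨a1, a2, a3, a4⟩
    rw [add_sub_cancel_right] at a3
    exact ⟨a1, a2, a3⟩
  refine le_trans ?_ (hT.trans (measureReal_mono h1 (vol_ne (sub_Icc T))))
  refine mul_le_mul_of_nonneg_left ?_ hT0.le
  refine Real.rpow_le_rpow_of_exponent_le hL ?_
  nlinarith

/-- **values and moments of Hardy's function of each sign** -/
theorem result :
    (∀ κ ε σ : ℝ, 0 < ε → (σ = 1 ∨ σ = -1) → ∃ T₀ : ℝ, ∀ T : ℝ, T₀ ≤ T →
      T * Real.log T ^ (-κ ^ 2 - ε) ≤ volume.real (near σ κ ε T)) ∧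
    (∀ κ σ : ℝ, 0 < κ → κ ≤ 2 → (σ = 1 ∨ σ = -1) →
      (∃ C T₀ : ℝ, ∀ T : ℝ, T₀ ≤ T → volume.real (large σ κ T) ≤ C * (T * Real.log T ^ (-κ ^ 2))) ∧
      Tendsto (fun T : ℝ => Real.log (volume.real (large σ κ T) / T) / Real.log (Real.log T))
        atTop (𝓝 (-κ ^ 2))) ∧
    (∀ k ε σ : ℝ, 0 < ε → (σ = 1 ∨ σ = -1) → ∃ T₀ : ℝ, ∀ T : ℝ, T₀ ≤ T →
      ENNReal.ofReal (T * Real.log T ^ (k ^ 2 - ε)) ≤ moment σ k T) ∧
    (∀ k σ : ℝ, 0 < k → k ≤ 2 → (σ = 1 ∨ σ = -1) →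
      (∃ C T₀ : ℝ, ∀ T : ℝ, T₀ ≤ T → moment σ k T ≤ ENNReal.ofReal (C * (T * Real.log T ^ (k ^ 2)))) ∧
      Tendsto (fun T : ℝ => Real.log ((moment σ k T).toReal / T) / Real.log (Real.log T))
        atTop (𝓝 (k ^ 2))) := by
  refine ⟨?_, ?_, ?_, ?_⟩
  · intro κ ε σ hε hσ
    exact Filter.eventually_atTop.mp (near_ge hσ κ hε)
  · intro κ σ h0 h2 hσ
    obtain ⟨C, -, hC⟩ := large_le hσ κ h0 h2
    exact ⟨⟨C, Filter.eventually_atTop.mp hC⟩,
      tendsto_of_bounds (fun ε hε => large_ge hσ κ h0 hε) fun ε hε => const_le hC hε⟩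
  · intro k ε σ hε hσ
    exact Filter.eventually_atTop.mp (moment_ge hσ k hε)
  · intro k σ h0 h2 hσ
    obtain ⟨C, hC1, hC⟩ := moment_le σ k h0 h2
    refine ⟨⟨C, Filter.eventually_atTop.mp hC⟩, tendsto_of_bounds (fun ε hε => ?_) fun ε hε => ?_⟩
    · filter_upwards [moment_ge hσ k hε, hC, Real.tendsto_log_atTop.eventually_ge_atTop 1,
        eventually_ge_atTop 1] with T h3 h4 hL hT1
      exact (ENNReal.ofReal_le_iff_le_toReal (ne_top_of_le_ne_top ENNReal.ofReal_ne_top h4)).mp h3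
    · refine const_le (C := C) ?_ hε
      filter_upwards [hC, Real.tendsto_log_atTop.eventually_ge_atTop 1,
        eventually_ge_atTop 1] with T h4 hL hT1
      exact ENNReal.toReal_le_of_le_ofReal (by positivity) h4

end Pool.Agent.Results.MP_973905_nt.SignedMomentsOfZ
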